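import Pool.Agent.Work.MP_db9399_ot.Interface
import Pool.Agent.Work.MP_db9399_lh.Base

/-! # THEOREM OUT: simple facts -/

set_option autoImplicit false

namespace Pool.Agent.Work.MP_db9399_ot

open Finset Classical
open Pool.Agent.Work.MP_db9399_all (nb)
open Pool.Agent.Work.MP_db9399_bg (den cl LabP)
open Pool.Agent.Work.MP_db9399_lc (BL)
open Pool.Agent.Work.MP_db9399_lh (Cr Lh)

universe u

variable {V : Type u} [Fintype V]

theorem BH.toBL {g ε b : ℝ} {H : SimpleGraph V} {D : ℕ} (h : BH g ε b H D)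
    (hb : (1 + g) * D ≤ b) : BL g ε H D where
  deg := h.deg
  low := h.low
  bip := h.bip
  nsc C hC := h.nsc C (hC.trans hb)
  big := h.big

theorem BH.mono {g ε ε' b : ℝ} {H : SimpleGraph V} {D : ℕ} (h : BH g ε b H D) (he : ε ≤ ε') :
    BH g ε' b H D where
  deg := h.deg
  low v := le_trans (mul_le_mul_of_nonneg_right (by linarith) (Nat.cast_nonneg _)) (h.low v)
  bip := h.bip
  nsc := h.nsc
  big := h.big

theorem Cls.mono {n : ℕ} {ε ε' : ℝ} {G H : SimpleGraph V} {Gc : Fin n → SimpleGraph V}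
    {d D : ℕ} (h : Cls ε G H Gc d D) (he : ε ≤ ε') : Cls ε' G H Gc d D where
  HG := h.HG
  GG := h.GG
  cov := h.cov
  disH := h.disH
  dis := h.dis
  reg i v := (h.reg i v).trans (mul_le_mul_of_nonneg_right he (Nat.cast_nonneg _))
  dD := h.dD.trans (mul_le_mul_of_nonneg_right he (Nat.cast_nonneg _))

theorem Cls.D_le {n : ℕ} {ε : ℝ} {G H : SimpleGraph V} {Gc : Fin n → SimpleGraph V}
    {d D : ℕ} (h : Cls ε G H Gc d D) : ((n : ℝ) + 1) * D ≤ (1 + ε) * d := by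
  have := (abs_le.mp h.dD).2
  linarith

theorem Cls.le_D {n : ℕ} {ε : ℝ} {G H : SimpleGraph V} {Gc : Fin n → SimpleGraph V}
    {d D : ℕ} (h : Cls ε G H Gc d D) : (1 - ε) * d ≤ ((n : ℝ) + 1) * D := by
  have := (abs_le.mp h.dD).1
  linarith

/-- `D ≤ d` as soon as `n ≥ 1`, `ε ≤ 1` -/
theorem Cls.Dd {n : ℕ} {ε : ℝ} {G H : SimpleGraph V} {Gc : Fin n → SimpleGraph V}
    {d D : ℕ} (h : Cls ε G H Gc d D) (hn : 0 < n) (he : ε ≤ 1) : D ≤ d := by
  have h1 := h.D_le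
  have hn' : (1 : ℝ) ≤ n := by exact_mod_cast hn
  have hD : (0 : ℝ) ≤ D := Nat.cast_nonneg _
  have hd : (0 : ℝ) ≤ d := Nat.cast_nonneg _
  have h2 : (2 : ℝ) * D ≤ 2 * d := by nlinarith
  have h3 : (D : ℝ) ≤ d := by linarith
  exact_mod_cast h3

theorem Cls.d2D {n : ℕ} {ε : ℝ} {G H : SimpleGraph V} {Gc : Fin n → SimpleGraph V}
    {d D : ℕ} (h : Cls ε G H Gc d D) (he : ε ≤ 1 / 2) : (d : ℝ) ≤ 2 * ((n : ℝ) + 1) * D := by
  have h1 := h.le_D
  have hd : (0 : ℝ) ≤ d := Nat.cast_nonneg _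
  nlinarith

section sit
variable {l m r K K1 S n : ℕ} {g gh ε ε' σ σ' c1 c1' : ℝ} {G H Q : SimpleGraph V}
  {Gc : Fin n → SimpleGraph V} {d D : ℕ} {lab : V → Lh l m r K K1 S}

theorem BL.mono' {g ε ε' : ℝ} {G : SimpleGraph V} {d : ℕ} (h : BL g ε G d) (he : ε ≤ ε') :
    BL g ε' G d where
  deg := h.deg
  low v := le_trans (mul_le_mul_of_nonneg_right (by linarith) (Nat.cast_nonneg _)) (h.low v)
  bip := h.bip
  nsc := h.nsc
  big := h.big

theorem Sit.mono (h : Sit g gh ε σ c1 G H Q Gc d D lab) (he : ε ≤ ε') (hs : σ ≤ σ')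
    (hc : c1 ≤ c1') : Sit g gh ε' σ' c1' G H Q Gc d D lab where
  bl := BL.mono' h.bl he
  bh := h.bh.mono he
  cls := h.cls.mono he
  labG := h.labG.mono hs hc
  labH := h.labH.mono hs hc
  labc i := (h.labc i).mono hs hc
  labQ := h.labQ.mono hs hc

/-- the host as in `lc`, `lh` -/
theorem Sit.blH (h : Sit g gh ε σ c1 G H Q Gc d D lab) (hn : 0 < n) (he : ε ≤ 1) (hg : 0 ≤ gh) :
    BL gh ε H D := by
  refine h.bh.toBL (mul_le_mul_of_nonneg_left ?_ (by linarith))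
  exact_mod_cast h.cls.Dd hn he

end sit

end Pool.Agent.Work.MP_db9399_ot
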