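import Pool.Agent.Work.MP_db9399_lh.Interface
import Pool.Agent.Work.MP_db9399_lt.Interface

/-!
# MP_db9399, THEOREM OUT: THEOREM LCH with typed colours and a thinned host (owner helper1)

The graph `G` is split into the host `H` (all reserve edges lie in `H`) and `n` classes `Gc i`, all
near-regular of the same degree `D`, `(n + 1) D = d (1 + o(1))`. Colours of the class `i` use only edges
of `Gc i` and of `H`. See `BLUEPRINT.md`.
-/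

set_option autoImplicit false

namespace Pool.Agent.Work.MP_db9399_ot

open Finset Classical
open Pool.Agent.Work.MP_db9399_all (nb)
open Pool.Agent.Work.MP_db9399_px (LWalk hit ee)
open Pool.Agent.Work.MP_db9399_dn (NB IsMat Tot)
open Pool.Agent.Work.MP_db9399_sc (cut Crit Conn Env Fam Rnd Hv)
open Pool.Agent.Work.MP_db9399_bg (den cl LabP Good PN IsPat en enP Sep Near REnv r0 Deep Spr Ok
  Lbl bx c3f c3 rs rs_symm eR HPre Ix)
open Pool.Agent.Work.MP_db9399_lc (BL)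
open Pool.Agent.Work.MP_db9399_lh (Cr Lh ce su kp io sp pt cr cy rf rx rr tj ty inM rP rR np nr eP
  pr qr qe fq f0 ft Vq EndSX Vd UW VCol Rr Rf Jk Ub P0R PeR)
open _root_.MP_db9399_co

universe u

section defs
variable {V : Type u} [Fintype V]

/-- a near-regular host of degree `D` without almost bipartite parts and without near-components of
at most `b` vertices -/
structure BH (g ε b : ℝ) (H : SimpleGraph V) (D : ℕ) : Prop where
  deg : ∀ v, (nb H v).card ≤ D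
  low : ∀ v, (1 - ε) * D ≤ ((nb H v).card : ℝ)
  bip : ∀ S T : Finset V, Disjoint S T → (S.card : ℝ) ≤ (1 + g) * T.card →
    g * D * T.card ≤ ∑ t ∈ T, ((nb H t \ S).card : ℝ)
  nsc : ∀ C : Finset V, (C.card : ℝ) ≤ b →
    g * D * C.card ≤ ∑ v ∈ C, ((nb H v \ C).card : ℝ)
  big : 3 * D ≤ Fintype.card V

/-- `G` is split into the host `H` and the classes `Gc i`; all degrees are about `D` -/
structure Cls {n : ℕ} (ε : ℝ) (G H : SimpleGraph V) (Gc : Fin n → SimpleGraph V) (d D : ℕ) :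
    Prop where
  HG : H ≤ G
  GG : ∀ i, Gc i ≤ G
  cov : ∀ v v', G.Adj v v' → H.Adj v v' ∨ ∃ i, (Gc i).Adj v v'
  disH : ∀ i v v', (Gc i).Adj v v' → ¬ H.Adj v v'
  dis : ∀ i j, i ≠ j → ∀ v v', (Gc i).Adj v v' → ¬ (Gc j).Adj v v'
  reg : ∀ i v, |((nb (Gc i) v).card : ℝ) - D| ≤ ε * D
  dD : |((n : ℝ) + 1) * D - d| ≤ ε * d

end defs

section ctx
variable {V : Type u} [Fintype V] {l m r K K1 S : ℕ}

/-- one more round in the host is possible (compare `lh.OneRound`); `dd` = number of rounds -/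
def OneRound (g δ : ℝ) (H : SimpleGraph V) (D dd : ℕ) (lab : V → Lh l m r K K1 S) : Prop :=
  ∀ (τ : Option (ZMod 3)) (i : ZMod 3) (F : SimpleGraph V) (a : ZMod (2 * m + 1)) (h : Fin m)
    (U J : Finset V) (lg : ℕ) (Oi : ℕ → Finset V), τ ≠ some i →
    REnv H F (qr l m S τ D) δ lab (rP l r K K1 S a h τ) (rR l S τ) U J →
    lg * (3 * (2 * m + 1)) ≤ dd →
    (∀ j < lg, Spr g H D (3 * (2 * m + 1)) (Vq lab a i) (Oi j)) →
    ∃ (M : SimpleGraph V) (O : Finset V), M ≤ F ∧ IsMat M ∧ (∀ v w, M.Adj v w → v ∈ U) ∧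
      (∀ v ∈ U, v ∉ O → (nb M v).Nonempty) ∧ O ⊆ U ∧
      (∀ v ∈ O, ce (lab v) = a ∧ pt (lab v) = i ∧ inM (lab v) ∧ ∀ j < lg, v ∉ Oi j) ∧
      Spr g H D (3 * (2 * m + 1)) (Vq lab a i) O

/-- critical sets of the last rounds contain unused vertices which may be missed (compare
`lh.EndCap`) -/
def EndCap (g δ : ℝ) (H : SimpleGraph V) (D dd : ℕ) (lab : V → Lh l m r K K1 S) : Prop :=
  ∀ (i : ZMod 3) (F : SimpleGraph V) (U L C : Finset V) (qq lg : ℕ)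
    (Oi : ZMod (2 * m + 1) → ℕ → Finset V),
    REnv H F (qe l D) δ lab (eP l m r K K1 S i) (eR l) U ∅ →
    qe l D ≤ qq → (qq : ℝ) ≤ 101 / 100 * qe l D → L ⊆ U → Crit F qq U L C → Conn F C →
    lg * (3 * (2 * m + 1)) ≤ dd →
    (∀ a, ∀ j < lg, Spr g H D (3 * (2 * m + 1)) (Vq lab a i) (Oi a j)) →
    g / 40 * C.card ≤ ((C.filter (fun v => inM (lab v) ∧ ∀ a, ∀ j < lg, v ∉ Oi a j)).card : ℝ)

/-- everything about the graph, its classes and the labels; `Q` is an auxiliary graph -/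
structure Sit {n : ℕ} (g gh ε σ c1 : ℝ) (G H Q : SimpleGraph V) (Gc : Fin n → SimpleGraph V)
    (d D : ℕ) (lab : V → Lh l m r K K1 S) : Prop where
  bl : BL g ε G d
  bh : BH gh ε ((1 + gh) * d) H D
  cls : Cls ε G H Gc d D
  labG : LabP G d σ c1 lab
  labH : LabP H D σ c1 lab
  labc : ∀ i, LabP (Gc i) D σ c1 lab
  labQ : LabP Q d σ c1 lab

/-- Near-decomposition. `Nd x` joins the cells `a` and `2 * x.1 - a` outside the three cells of `x`: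
by edges of the class `ι x.2.2`, or by edges of the host of type `τ x.2.2`. -/
structure NDec {w n : ℕ} (ν : ℕ) (H : SimpleGraph V) (Gc : Fin n → SimpleGraph V)
    (UH : Finset V) (lab : V → Lh l m r K K1 S) (τ : Fin w → Option (ZMod 3))
    (ι : Fin w → Option (Fin n)) (Nd : Ix m w → SimpleGraph V) : Prop where
  mat : ∀ x, IsMat (Nd x)
  gc : ∀ x i, ι x.2.2 = some i → Nd x ≤ Gc i
  gh : ∀ x, ι x.2.2 = none → ∀ v v', (Nd x).Adj v v' →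
    H.Adj v v' ∧ ty ν (τ x.2.2) (cr (lab v)) (cr (lab v'))
  adj : ∀ x v v', (Nd x).Adj v v' → v ∉ UH ∧ ce (lab v) ∉ c3 x.1 x.2.1 ∧
    ce (lab v) + ce (lab v') = 2 * x.1
  dis : ∀ x x', x ≠ x' → ∀ v v', (Nd x).Adj v v' → ¬ (Nd x').Adj v v'
  cov : ∀ x v, v ∉ UH → ce (lab v) ∉ c3 x.1 x.2.1 → τ x.2.2 ≠ some (pt (lab v)) →
    ¬ (kp (lab v) = x.1 ∧ io (lab v) = 0) → (nb (Nd x) v).Nonempty

/-- `wv u b` = partner of `u ∈ UH` in the colour `b` (compare `lh.UPar`). Partners in colours of the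
class `i` are neighbours in `Gc i` or `H`, all others are neighbours in `H`. Every neighbour of `u`
is a partner in a colour `e x`, except neighbours in `H` with labels in the part `tp u` outside
`inM`. -/
structure UPar {k w W1 n : ℕ} (G H : SimpleGraph V) (Gc : Fin n → SimpleGraph V) (D : ℕ) (δ : ℝ)
    (UH : Finset V) (c0 tu : V → Fin k) (lab : V → Lh l m r K K1 S) (e : Ix m w → Fin k)
    (τ : Fin w → Option (ZMod 3)) (ι : Fin w → Option (Fin n)) (e1 : Fin W1 → Fin k)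
    (sy : Fin W1 → Fin (K1 + 1) × Fin (K1 + 1)) (tp : V → ZMod 3) (c : V → Fin k)
    (wv : V → Fin k → V) : Prop where
  adj : ∀ u ∈ UH, ∀ b, b ≠ c0 u → b ≠ tu u → Vd e τ e1 (tp u) b →
    G.Adj u (wv u b) ∧ wv u b ∉ UH ∧ c (wv u b) ≠ b
  cls : ∀ u ∈ UH, ∀ x, e x ≠ c0 u → e x ≠ tu u → τ x.2.2 ≠ some (tp u) →
    H.Adj u (wv u (e x)) ∨ ∃ i, ι x.2.2 = some i ∧ (Gc i).Adj u (wv u (e x))
  cl1 : ∀ u ∈ UH, ∀ y, e1 y ≠ c0 u → e1 y ≠ tu u → H.Adj u (wv u (e1 y))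
  inj : ∀ u ∈ UH, ∀ b b', b ≠ c0 u → b ≠ tu u → b' ≠ c0 u → b' ≠ tu u →
    Vd e τ e1 (tp u) b → Vd e τ e1 (tp u) b' → wv u b = wv u b' → b = b'
  inj2 : ∀ u ∈ UH, ∀ u' ∈ UH, ∀ b, b ≠ c0 u → b ≠ tu u → b ≠ c0 u' → b ≠ tu u' →
    Vd e τ e1 (tp u) b → Vd e τ e1 (tp u') b → wv u b = wv u' b → u = u'
  cel : ∀ u ∈ UH, ∀ x, e x ≠ c0 u → e x ≠ tu u → τ x.2.2 ≠ some (tp u) →
    ce (lab (wv u (e x))) ∈ c3 x.1 x.2.1 ∧ τ x.2.2 ≠ some (pt (lab (wv u (e x))))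
  spl : ∀ u ∈ UH, ∀ y, e1 y ≠ c0 u → e1 y ≠ tu u →
    sp (lab (wv u (e1 y))) ≠ (sy y).1 ∧ sp (lab (wv u (e1 y))) ≠ (sy y).2
  sat : ∀ u ∈ UH, ∀ v, G.Adj u v → v ∉ UH →
    (¬ H.Adj u v ∨ pt (lab v) ≠ tp u ∨ inM (lab v)) →
    ∃ x, τ x.2.2 ≠ some (tp u) ∧ e x ≠ c0 u ∧ e x ≠ tu u ∧ wv u (e x) = v
  spr : ∀ v b, ((nb G v ∩ UW UH c0 tu e τ e1 tp wv b).card : ℝ) ≤ δ * D

/-- the leftover: all edges of `G` between vertices outside `UH` which are not final reserve edges,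
not in the near-decomposition and not used in the rounds of the colours `e x` -/
structure Lft {w W1 : ℕ} (G H : SimpleGraph V) (UH : Finset V) (lab : V → Lh l m r K K1 S)
    (sy : Fin W1 → Fin (K1 + 1) × Fin (K1 + 1)) (Nd M : Ix m w → SimpleGraph V)
    (Kk : Fin W1 → SimpleGraph V) : Prop where
  le : ∀ y, Kk y ≤ G
  mat : ∀ y, IsMat (Kk y)
  mem : ∀ y v v', (Kk y).Adj v v' → v ∉ UH ∧ ¬ (Rf H UH lab).Adj v v' ∧
    (sp (lab v) = (sy y).1 ∨ sp (lab v) = (sy y).2)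
  dis : ∀ y y', y ≠ y' → ∀ v v', (Kk y).Adj v v' → ¬ (Kk y').Adj v v'
  new : ∀ y v v', (Kk y).Adj v v' → ∀ x, ¬ (Nd x).Adj v v' ∧ ¬ (M x).Adj v v'
  all : ∀ v v', v ∉ UH → v' ∉ UH → G.Adj v v' → ¬ (Rf H UH lab).Adj v v' →
    (∃ x, (Nd x).Adj v v') ∨ (∃ x, (M x).Adj v v') ∨ ∃ y, (Kk y).Adj v v'

end ctx

/-! ## General blocks -/

/-- LABF (LAB for finitely many graphs with the same labels). -/
def Stmt_LABF : Prop :=
  ∀ (T : Type) [Fintype T] [Nonempty T] (F : ℕ) (σ c1 ρ : ℝ), 0 < σ → 0 < c1 → 0 < ρ →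
    ∃ d0 : ℕ, ∀ {V : Type u} [Fintype V] (Gs : Fin F → SimpleGraph V) (d : ℕ) (Ds : Fin F → ℕ),
      d0 ≤ d → (∀ i v, (nb (Gs i) v).card ≤ d) → (∀ i, ρ * d ≤ Ds i ∧ Ds i ≤ d) →
      ∃ lab : V → T, ∀ i, LabP (Gs i) (Ds i) σ c1 lab

/-- LTZ (from LT and Hall): LT with an exceptional set `Z` where nothing is avoided. -/
structure LTZH {V : Type u} [Fintype V] (G : SimpleGraph V) (d x y h s : ℕ) (F : V → Finset ℕ)
    (p : V → Fin 3) (a : V → Bool) (C : Fin 3 → Finset ℕ) (Z : Finset V) : Prop where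
  x1 : 1 ≤ x
  xd : 10 ^ 26 * (2 * x) ≤ d
  yh : 100 * (y + x) ≤ h
  hd : 10 ^ 12 * h ≤ d
  dh : d ≤ 10 ^ 13 * h
  Zx : Z.card ≤ x
  deg : ∀ v, (nb G v).card + (F v).card = d + 1
  inn : ∀ v, (MP_db9399_nc.nn G univ v).card ≤ x
  Fx : ∀ v, (F v).card ≤ x
  Flt : ∀ v, ∀ b ∈ F v, b < d + 2
  load : ∀ b, ((MP_db9399_lt.us F b) \ Z).card ≤ y
  par : (MP_db9399_lt.wr F (range (d + 2))).card ≤ Fintype.card V
  cs : ∀ i l, (MP_db9399_lt.cell p a i l).card ≤ s ∧ s ≤ (MP_db9399_lt.cell p a i l).card + x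
  Clt : ∀ i, ∀ b ∈ C i, b < d + 2
  Cdis : ∀ i j, i ≠ j → Disjoint (C i) (C j)
  Ccard : ∀ i, (C i).card + h = 2 * s
  CF : ∀ v, v ∉ Z → Disjoint (F v) (C (p v))

/-- LTZ. -/
def Stmt_LTZ : Prop :=
  ∀ {V : Type u} [Fintype V] (G : SimpleGraph V) (d x y h s : ℕ) (F : V → Finset ℕ)
    (p : V → Fin 3) (a : V → Bool) (C : Fin 3 → Finset ℕ) (Z : Finset V),
    LTZH G d x y h s F p a C Z →
    ∃ t : V → V → ℕ, (∀ v w, t v w = t w v) ∧ (∀ v w, G.Adj v w → t v w < d + 2 ∧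
      t v w ∉ F v) ∧ ∀ v, Set.InjOn (t v) (nb G v : Set V)

/-! ## The core -/

/-- CORE (RND1 and CAPE with the same parameter `gd` for deep vertices; compare `lh.Stmt_RND1`,
`lh.Stmt_CAPE`). -/
def Stmt_CORE : Prop :=
  ∀ (g : ℝ) (n : ℕ), 0 < g → g ≤ 1 / 10 → ∃ (gd : ℝ) (l0 : ℕ), 0 < gd ∧ gd ≤ g ∧
    ∀ l : ℕ, l0 ≤ l → ∃ δc : ℝ, 0 < δc ∧ ∀ S : ℕ, ∃ δ : ℝ, 0 < δ ∧
    ∀ m r K K1 : ℕ, 1 ≤ m → ∃ (σ c1 ε0 : ℝ) (d0 : ℕ), 0 < σ ∧ 0 < c1 ∧ 0 < ε0 ∧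
    ∀ {V : Type u} [Fintype V] (H : SimpleGraph V) (d D : ℕ) (lab : V → Lh l m r K K1 S),
      d0 ≤ d → (d : ℝ) ≤ 2 * ((n : ℝ) + 1) * D → D ≤ d → BH g ε0 ((1 + g) * d) H D →
      LabP H D σ c1 lab → OneRound gd δ H D d lab ∧ EndCap gd δc H D d lab

/-! ## The blocks of the machine. PAT, ESX, VCOL are those of LCH (`lh.stmt_ESX` applied to the
host), FAC that of BIG, LEMU of helper6. -/

/-- NDEC (from FAC): one application of FAC for every pair of cells and every type: host edges of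
the types `none`, `some 0`, `some 1`, `some 2` and the `n` classes. -/
def Stmt_NDEC : Prop :=
  ∀ (g gh : ℝ) (n l m r K K1 S ν : ℕ), 0 < g → 0 < gh → 3 ≤ l → 2 ≤ m → ν ≤ S →
    ∃ (σ ε0 : ℝ) (d0 : ℕ), 0 < σ ∧ 0 < ε0 ∧
    ∀ {V : Type u} [Fintype V] (G H Q : SimpleGraph V) (Gc : Fin n → SimpleGraph V)
      (d D w : ℕ) (c1 : ℝ) (UH : Finset V) (lab : V → Lh l m r K K1 S)
      (τ : Fin w → Option (ZMod 3)) (ι : Fin w → Option (Fin n)), d0 ≤ d →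
      Sit g gh ε0 σ c1 G H Q Gc d D lab → (∀ v, (nb G v ∩ UH).card ≤ 2) →
      (∀ s, ι s ≠ none → τ s = none) →
      (∀ t, ((m : ℝ) - 1) * (univ.filter (fun s => ι s = none ∧ τ s = t)).card ≤
        (1 - 1 / (2 * m + 1)) * (ft l S ν t * D / (2 * m + 1))) →
      (∀ i, ((m : ℝ) - 1) * (univ.filter (fun s => ι s = some i)).card ≤
        (1 - 1 / (2 * m + 1)) * ((D : ℝ) / (2 * m + 1))) →
      ∃ Nd : Ix m w → SimpleGraph V, NDec ν H Gc UH lab τ ι Nd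

/-- UPAR (from `twoV`, Work/MP_db9399_lh_helper29/UCSV.lean): partners of the vertices of `UH`, in
two stages. -/
def Stmt_UPAR : Prop :=
  ∀ (n l m r K K1 S : ℕ) (δ : ℝ), 0 < δ → 20 ≤ l → 1 ≤ m → 20 * (2 * l + 1) ≤ r → n ≤ r →
    4 ≤ K1 → 1000 * (n + 1) * (r + 1) ≤ 2 * m + 1 →
    ∃ (σ ε0 : ℝ) (d0 : ℕ), 0 < σ ∧ 0 < ε0 ∧
    ∀ {V : Type u} [Fintype V] (G H Q : SimpleGraph V) (Gc : Fin n → SimpleGraph V)
      (d D k w w0 wq wc W1 : ℕ) (g gh c1 : ℝ) (UH : Finset V) (c0 : V → Fin k)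
      (EH : SimpleGraph V) (tu : V → Fin k) (lab : V → Lh l m r K K1 S) (e : Ix m w → Fin k)
      (τ : Fin w → Option (ZMod 3)) (ι : Fin w → Option (Fin n)) (e1 : Fin W1 → Fin k)
      (sy : Fin W1 → Fin (K1 + 1) × Fin (K1 + 1)) (tp : V → ZMod 3)
      (pal : Fin m × Fin w → Fin (r + 1)) (c : V → Fin k), d0 ≤ d →
      Sit g gh ε0 σ c1 G H Q Gc d D lab → HPre G UH c0 EH tu → Function.Injective e →
      Function.Injective e1 → (∀ x y, e x ≠ e1 y) → VCol G UH c0 lab e τ pal c →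
      (∀ s, ι s ≠ none → τ s = none) →
      (univ.filter (fun s => ι s = none ∧ τ s = none)).card = w0 →
      (∀ j, (univ.filter (fun s => τ s = some j)).card = wq) →
      (∀ i, (univ.filter (fun s => ι s = some i)).card = wc) →
      (2 * (m : ℝ) + 1) * m * (w0 + 2 * wq) ≤ (1 - 1 / (2 * (2 * l + 1))) * D →
      (1 - 1 / (2 * l + 1)) * D ≤ (2 * (m : ℝ) + 1) * m * (w0 + 2 * wq) →
      (2 * (m : ℝ) + 1) * m * wc ≤ (1 + 3 / (2 * m + 1)) * D →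
      (1 + 1 / (2 * (2 * m + 1))) * D ≤ (2 * (m : ℝ) + 1) * m * wc →
      (W1 : ℝ) ≤ D / (12 * (2 * l + 1)) →
      ∃ wv : V → Fin k → V, UPar G H Gc D δ UH c0 tu lab e τ ι e1 sy tp c wv

/-- P0ALL: the rounds of the colours `e x`. -/
def Stmt_P0ALL : Prop :=
  ∀ (g gh gd δ : ℝ) (n l m r K K1 S ν : ℕ), 0 < g → 0 < gh → 0 < gd → 0 < δ → δ ≤ 1 / 10 →
    3 ≤ l → 4 ≤ m → 10000 * ((n : ℝ) + 1) * (2 * (l : ℝ) + 1) ≤ δ * (2 * m + 1) →
    10000 * ((n : ℝ) + 1) * (2 * (l : ℝ) + 1) ≤ δ * (r + 1) →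
    10000 * ((n : ℝ) + 1) * (2 * (l : ℝ) + 1) ≤ δ * (K + 1) →
    ∃ (σ ε0 δ2 : ℝ) (d0 : ℕ), 0 < σ ∧ 0 < ε0 ∧ 0 < δ2 ∧
    ∀ {V : Type u} [Fintype V] (G H Q : SimpleGraph V) (Gc : Fin n → SimpleGraph V)
      (d D k w W1 : ℕ) (c1 : ℝ) (UH : Finset V) (c0 : V → Fin k) (EH : SimpleGraph V)
      (tu : V → Fin k) (lab : V → Lh l m r K K1 S) (e : Ix m w → Fin k)
      (τ : Fin w → Option (ZMod 3)) (ι : Fin w → Option (Fin n)) (ρ : Fin w → ZMod 3)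
      (e1 : Fin W1 → Fin k) (sy : Fin W1 → Fin (K1 + 1) × Fin (K1 + 1)) (tp : V → ZMod 3)
      (pal : Fin m × Fin w → Fin (r + 1)) (c : V → Fin k) (wv : V → Fin k → V)
      (Nd : Ix m w → SimpleGraph V), d0 ≤ d → Sit g gh ε0 σ c1 G H Q Gc d D lab →
      OneRound gd δ H D d lab → HPre G UH c0 EH tu → Function.Injective e →
      VCol G UH c0 lab e τ pal c → UPar G H Gc D δ2 UH c0 tu lab e τ ι e1 sy tp c wv →
      NDec ν H Gc UH lab τ ι Nd → (2 * (m : ℝ) + 1) * m * w ≤ d → (∀ s, τ s ≠ some (ρ s)) →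
      (∀ i, (3 * (2 * (m : ℝ) + 1)) * (m * (univ.filter (fun s => ρ s = i)).card) ≤ d) →
      ∃ (M : Ix m w → SimpleGraph V) (O : Ix m w → Finset V),
        P0R gd H D UH c0 tu lab e τ ρ e1 tp c wv Nd M O

/-- LEFT (from `vizing`, Work/MP_db9399_all_helper34/VIZ.lean): the leftover, after the rounds of
the colours `e x`. -/
def Stmt_LEFT : Prop :=
  ∀ n l m r K K1 S ν : ℕ, 3 ≤ l → 2 ≤ m → ν ≤ S → ∃ (σ ε0 : ℝ) (d0 : ℕ), 0 < σ ∧ 0 < ε0 ∧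
    ∀ {V : Type u} [Fintype V] (G H Q : SimpleGraph V) (Gc : Fin n → SimpleGraph V)
      (d D w W1 : ℕ) (g gh c1 : ℝ) (UH : Finset V) (lab : V → Lh l m r K K1 S)
      (τ : Fin w → Option (ZMod 3)) (ι : Fin w → Option (Fin n))
      (sy : Fin W1 → Fin (K1 + 1) × Fin (K1 + 1)) (Nd M : Ix m w → SimpleGraph V), d0 ≤ d →
      Sit g gh ε0 σ c1 G H Q Gc d D lab → NDec ν H Gc UH lab τ ι Nd →
      (∀ x v v', (M x).Adj v v' → (Rr H UH lab).Adj v v') →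
      (∀ s, ι s ≠ none → τ s = none) →
      (∀ t, (1 - 2 / (2 * m + 1)) * (ft l S ν t * D / (2 * m + 1)) ≤
        ((m : ℝ) - 1) * (univ.filter (fun s => ι s = none ∧ τ s = t)).card) →
      (∀ i, (1 - 2 / (2 * m + 1)) * ((D : ℝ) / (2 * m + 1)) ≤
        ((m : ℝ) - 1) * (univ.filter (fun s => ι s = some i)).card) →
      (∀ z, (D : ℝ) / ((2 * l + 1) * (S + 1)) + 8 * (d : ℝ) / (2 * m + 1) ≤
        (univ.filter (fun y => sy y = z)).card) →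
      ∃ Kk : Fin W1 → SimpleGraph V, Lft G H UH lab sy Nd M Kk

/-- PEALL (from PALL of MP_db9399_sc): the rounds of the colours `e1 y`. -/
def Stmt_PEALL : Prop :=
  ∀ (g gh gd δ cE : ℝ) (n l : ℕ), 0 < g → 0 < gh → 0 < gd → gd ≤ 1 / 10 → 0 < δ → 0 < cE →
    2 ≤ l →
    ∃ (K0 : ℕ) (δe : ℝ), 0 < δe ∧ ∀ K1 : ℕ, K0 ≤ K1 → ∃ m0 : ℕ, ∀ m r K S : ℕ, m0 ≤ m →
    ∃ (σ ε0 δ2 : ℝ) (d0 : ℕ), 0 < σ ∧ 0 < ε0 ∧ 0 < δ2 ∧
    ∀ {V : Type u} [Fintype V] (G H Q : SimpleGraph V) (Gc : Fin n → SimpleGraph V)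
      (d D k w W1 ν : ℕ) (c1 : ℝ) (UH : Finset V)
      (c0 : V → Fin k) (EH : SimpleGraph V) (tu : V → Fin k) (lab : V → Lh l m r K K1 S)
      (e : Ix m w → Fin k) (τ : Fin w → Option (ZMod 3)) (ι : Fin w → Option (Fin n))
      (ρ : Fin w → ZMod 3)
      (e1 : Fin W1 → Fin k) (sy : Fin W1 → Fin (K1 + 1) × Fin (K1 + 1)) (tp : V → ZMod 3)
      (c : V → Fin k) (wv : V → Fin k → V) (Nd M : Ix m w → SimpleGraph V)
      (O : Ix m w → Finset V) (Kk : Fin W1 → SimpleGraph V), d0 ≤ d →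
      Sit g gh ε0 σ c1 G H Q Gc d D lab → EndCap gd δ H D d lab → EndSX cE H D lab →
      HPre G UH c0 EH tu →
      Function.Injective e1 → UPar G H Gc D δ2 UH c0 tu lab e τ ι e1 sy tp c wv →
      NDec ν H Gc UH lab τ ι Nd → P0R gd H D UH c0 tu lab e τ ρ e1 tp c wv Nd M O →
      Lft G H UH lab sy Nd M Kk → (2 * (m : ℝ) + 1) * m * w ≤ d →
      (∀ i, (3 * (2 * (m : ℝ) + 1)) * (m * (univ.filter (fun s => ρ s = i)).card) ≤ d) →
      (W1 : ℝ) ≤ δe * D →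
      ∃ (M1 : Fin W1 → SimpleGraph V) (O1 : Fin W1 → Finset V),
        PeR H UH c0 tu lab e τ e1 tp wv Kk M O M1 O1

/-- ASM (from `MP_db9399_lu.stmt_LEMU`, once for every part): the total colouring. The last
conclusion says where every colour may be used. -/
def Stmt_ASM : Prop :=
  ∀ {V : Type u} [Fintype V] {n l m r K K1 S : ℕ} (gd ε δ : ℝ) (G H : SimpleGraph V)
    (Gc : Fin n → SimpleGraph V) (d D k w W1 ν : ℕ) (UH : Finset V) (c0 : V → Fin k)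
    (EH : SimpleGraph V) (tu : V → Fin k) (lab : V → Lh l m r K K1 S) (e : Ix m w → Fin k)
    (τ : Fin w → Option (ZMod 3)) (ι : Fin w → Option (Fin n)) (ρ : Fin w → ZMod 3)
    (e1 : Fin W1 → Fin k) (sy : Fin W1 → Fin (K1 + 1) × Fin (K1 + 1))
    (tp : V → ZMod 3) (pal : Fin m × Fin w → Fin (r + 1)) (c : V → Fin k)
    (wv : V → Fin k → V) (Nd M : Ix m w → SimpleGraph V) (O : Ix m w → Finset V)
    (Kk M1 : Fin W1 → SimpleGraph V) (O1 : Fin W1 → Finset V),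
    3 ≤ l → (∀ v, (nb G v).card ≤ d) → Cls ε G H Gc d D →
    (2 * m + 1) * (m * w) + W1 = d + 2 →
    HPre G UH c0 EH tu → Function.Injective e → Function.Injective e1 → (∀ x y, e x ≠ e1 y) →
    (∀ u ∈ UH, ∀ x, τ x.2.2 = some (tp u) → e x ≠ c0 u ∧ e x ≠ tu u) →
    (∀ s, τ s ≠ some (ρ s)) → (∀ s, ι s ≠ none → τ s = none) →
    VCol G UH c0 lab e τ pal c → UPar G H Gc D δ UH c0 tu lab e τ ι e1 sy tp c wv →
    NDec ν H Gc UH lab τ ι Nd → P0R gd H D UH c0 tu lab e τ ρ e1 tp c wv Nd M O →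
    Lft G H UH lab sy Nd M Kk → PeR H UH c0 tu lab e τ e1 tp wv Kk M O M1 O1 →
    ∃ t : V → V → Fin k, Tot G c t ∧ (∀ v v', EH.Adj v v' → t v v' = tu v) ∧
      ∀ v v', G.Adj v v' → ¬ EH.Adj v v' →
        (∃ x, t v v' = e x ∧ (H.Adj v v' ∨ ∃ i, ι x.2.2 = some i ∧ (Gc i).Adj v v')) ∨
        ∃ y, t v v' = e1 y ∧
          (H.Adj v v' ∨ ((sp (lab v) = (sy y).1 ∨ sp (lab v) = (sy y).2) ∧
            (sp (lab v') = (sy y).1 ∨ sp (lab v') = (sy y).2)))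

/-- the colours of the result: `K0` all colours, `E1` a few of them, `cl b` = class of the colour
`b`. Edges of `G` outside `H` have colours of their class or colours in `E1`. -/
structure Res {V : Type u} [Fintype V] {n k : ℕ} (η : ℝ) (G H Q : SimpleGraph V)
    (Gc : Fin n → SimpleGraph V) (d D : ℕ) (UH : Finset V) (EH : SimpleGraph V)
    (c : V → Fin k) (t : V → V → Fin k) (K0 E1 : Finset (Fin k))
    (cs : Fin k → Option (Fin n)) : Prop where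
  K0c : K0.card = d + 2
  E1K : E1 ⊆ K0
  E1c : (E1.card : ℝ) ≤ η * D
  vK : ∀ v, v ∉ UH → c v ∈ K0
  tK : ∀ v v', G.Adj v v' → ¬ EH.Adj v v' → t v v' ∈ K0
  cnt : ∀ i, (1 - η) * D ≤ ((K0.filter (fun b => b ∉ E1 ∧ cs b = some i)).card : ℝ)
  edg : ∀ v v', G.Adj v v' → ¬ EH.Adj v v' → t v v' ∉ E1 →
    H.Adj v v' ∨ ∃ i, cs (t v v') = some i ∧ (Gc i).Adj v v'
  spr : ∀ v, ∀ b ∈ E1, (((nb Q v).filter (fun x => ∃ y, G.Adj x y ∧ ¬ EH.Adj x y ∧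
    ¬ H.Adj x y ∧ t x y = b)).card : ℝ) ≤ η * d

/-- NRM: near-regular graphs (all blocks). -/
def Stmt_NRM : Prop :=
  ∀ (g gh η : ℝ) (n : ℕ), 0 < g → g ≤ 1 / 10 → 0 < gh → gh ≤ 1 / 10 → 0 < η → η ≤ 1 / 10 →
    0 < n → ∃ (ε0 : ℝ) (d0 : ℕ), 0 < ε0 ∧
    ∀ {V : Type u} [Fintype V] (G H Q : SimpleGraph V) (Gc : Fin n → SimpleGraph V)
      (d D k : ℕ) (UH : Finset V) (c0 : V → Fin k) (EH : SimpleGraph V) (tu : V → Fin k),
      d0 ≤ d → d + 2 ≤ k → BL g ε0 G d → BH gh ε0 ((1 + gh) * d) H D → Cls ε0 G H Gc d D →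
      (∀ v, (nb Q v).card ≤ 2 * d) → HPre G UH c0 EH tu →
      ∃ (c : V → Fin k) (t : V → V → Fin k) (K0 E1 : Finset (Fin k))
        (cs : Fin k → Option (Fin n)),
        Tot G c t ∧ (∀ v ∈ UH, c v = c0 v) ∧ (∀ v v', EH.Adj v v' → t v v' = tu v) ∧
        Res η G H Q Gc d D UH EH c t K0 E1 cs

end Pool.Agent.Work.MP_db9399_ot
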