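import Pool.Agent.Work.MP_db9399_ot.Out

/-!
# THEOREM OUT with a conflict graph (owner helper1)

`Cf` = additional conflict graph for the vertex colours, of small degree (guards, helper38).
-/

set_option autoImplicit false

namespace Pool.Agent.Work.MP_db9399_ot

open Finset Classical
open Pool.Agent.Work.MP_db9399_all (nb)
open Pool.Agent.Work.MP_db9399_dn (NB IsMat Tot)
open Pool.Agent.Work.MP_db9399_bg (LabP HPre Ix)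
open Pool.Agent.Work.MP_db9399_lc (BL)
open Pool.Agent.Work.MP_db9399_lh (Lh VCol)
open _root_.MP_db9399_co

universe u

/-- VCOLC: `lh.Stmt_VCOL` with a conflict graph `Cf`. -/
def Stmt_VCOLC : Prop :=
  ∀ g : ℝ, 0 < g → g ≤ 1 / 10 → ∃ κ : ℝ, 0 < κ ∧ κ ≤ 1 ∧ ∀ l m r K K1 S : ℕ,
    ∃ (σ ε0 : ℝ) (d0 : ℕ), 0 < σ ∧ 0 < ε0 ∧
    ∀ {V : Type u} [Fintype V] (G Cf : SimpleGraph V) (d k w : ℕ) (c1 : ℝ) (UH : Finset V)
      (c0 : V → Fin k) (EH : SimpleGraph V) (tu : V → Fin k) (lab : V → Lh l m r K K1 S)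
      (e : Ix m w → Fin k) (τ : Fin w → Option (ZMod 3)) (pal : Fin m × Fin w → Fin (r + 1)),
      d0 ≤ d → BL g ε0 G d → LabP G d σ c1 lab → (∀ v, ((nb Cf v).card : ℝ) ≤ ε0 * d) →
      HPre G UH c0 EH tu → Function.Injective e →
      (∀ s, (1 - κ) * d ≤ (2 * m + 1) * (r + 1) *
        ((univ.filter (fun y : Fin m × Fin w => pal y = s ∧ τ y.2 = none)).card : ℝ)) →
      ∃ c : V → Fin k, VCol G UH c0 lab e τ pal c ∧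
        ∀ v w, v ∉ UH → w ∉ UH → Cf.Adj v w → c v ≠ c w

/-- NRMC: `Stmt_NRM` with a conflict graph `Cf`. -/
def Stmt_NRMC : Prop :=
  ∀ (g gh η : ℝ) (n : ℕ), 0 < g → g ≤ 1 / 10 → 0 < gh → gh ≤ 1 / 10 → 0 < η → η ≤ 1 / 10 →
    0 < n → ∃ (ε0 : ℝ) (d0 : ℕ), 0 < ε0 ∧
    ∀ {V : Type u} [Fintype V] (G H Q Cf : SimpleGraph V) (Gc : Fin n → SimpleGraph V)
      (d D k : ℕ) (UH : Finset V) (c0 : V → Fin k) (EH : SimpleGraph V) (tu : V → Fin k),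
      d0 ≤ d → d + 2 ≤ k → BL g ε0 G d → BH gh ε0 ((1 + gh) * d) H D → Cls ε0 G H Gc d D →
      (∀ v, (nb Q v).card ≤ 2 * d) → (∀ v, ((nb Cf v).card : ℝ) ≤ ε0 * d) →
      HPre G UH c0 EH tu →
      ∃ (c : V → Fin k) (t : V → V → Fin k) (K0 E1 : Finset (Fin k))
        (cs : Fin k → Option (Fin n)),
        Tot G c t ∧ (∀ v ∈ UH, c v = c0 v) ∧ (∀ v v', EH.Adj v v' → t v v' = tu v) ∧
        Res η G H Q Gc d D UH EH c t K0 E1 cs ∧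
        ∀ v w, v ∉ UH → w ∉ UH → Cf.Adj v w → c v ≠ c w

/-- THEOREM OUTC = THEOREM OUT with a conflict graph. `θ` does not depend on `g`. -/
def Stmt_OUTC : Prop :=
  ∀ (δ π : ℝ), 0 < δ → 0 < π → π < 1 / 3 → ∃ θ : ℝ, 0 < θ ∧ θ ≤ 1 / 100 ∧ ∀ g : ℝ, 0 < g →
    g ≤ 1 / 10 → ∃ (ε : ℝ) (d0 : ℕ), 0 < ε ∧ ∀ {V : Type u} [Fintype V] (G Cf : SimpleGraph V)
      (d k : ℕ) (Sp : Finset V) (Ys : Finset (Finset V)) (UH : Finset V) (c0 : V → Fin k)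
      (EH : SimpleGraph V) (tu : V → Fin k), d0 ≤ d → d ≤ Fintype.card V → d + 2 ≤ k →
      (∀ v, (nb G v).card ≤ d) → (∀ s ∈ Sp, ((nb G s).card : ℝ) ≤ θ * d) →
      (∀ s ∈ Sp, ∀ s' ∈ Sp, ¬ G.Adj s s') →
      (∀ S T : Finset V, Disjoint S T → (∀ t ∈ T, (1 - g) * d ≤ ((nb G t).card : ℝ)) →
        (S.card : ℝ) ≤ (1 + g) * T.card → g * d * T.card ≤ ∑ t ∈ T, ((nb G t \ S).card : ℝ)) →
      (∀ C : Finset V, (∀ v ∈ C, (1 - g) * d ≤ ((nb G v).card : ℝ)) →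
        (C.card : ℝ) ≤ (1 + g) * d → g * d * C.card ≤ ∑ v ∈ C, ((nb G v \ C).card : ℝ)) →
      (∀ v, ((nb Cf v).card : ℝ) ≤ ε * d) →
      (∀ Y ∈ Ys, Y ⊆ Sp ∧ Y.card ≤ 2 * d) →
      (∀ Y ∈ Ys, ∀ Y' ∈ Ys, Y ≠ Y' → Disjoint Y Y') → HPre G UH c0 EH tu →
      ∃ (c : V → Fin k) (t : V → V → Fin k) (K0 : Finset (Fin k)) (C : Fin 3 → Finset (Fin k))
        (p : V → Fin 3) (a : V → Bool) (Z : Finset V),
        Tot G c t ∧ (∀ v ∈ UH, c v = c0 v) ∧ (∀ v v', EH.Adj v v' → t v v' = tu v) ∧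
        OutR δ π G d Sp Ys UH EH c t K0 C p a Z ∧
        ∀ v w, v ∉ UH → w ∉ UH → Cf.Adj v w → c v ≠ c w

end Pool.Agent.Work.MP_db9399_ot
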