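import Pool.Agent.Work.MP_db9399_ot.Interface

/-!
# THEOREM OUT: the graph outside the spots (owner helper1)

`Sp` = vertices of the spots: independent in `G` and of degree at most `θ d`; all other vertices keep
all their edges. The colouring of `G` is such that the boundary edges at a spot vertex `s` outside the
exceptional set `Z` avoid the palette of the third of `s`, and every colour is at few vertices of
every spot.
-/

set_option autoImplicit false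

namespace Pool.Agent.Work.MP_db9399_ot

open Finset Classical
open Pool.Agent.Work.MP_db9399_all (nb)
open Pool.Agent.Work.MP_db9399_dn (NB IsMat Tot)
open Pool.Agent.Work.MP_db9399_bg (HPre)
open _root_.MP_db9399_co

universe u

/-- the result outside the spots: `K0` = the `d + 2` colours which are used, `C j` = palette
avoided by the third `j`, `(p, a)` = the six cells of every spot, `Z` = exceptional vertices -/
structure OutR {V : Type u} [Fintype V] {k : ℕ} (δ π : ℝ) (G : SimpleGraph V) (d : ℕ)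
    (Sp : Finset V) (Ys : Finset (Finset V)) (UH : Finset V) (EH : SimpleGraph V)
    (c : V → Fin k) (t : V → V → Fin k) (K0 : Finset (Fin k)) (C : Fin 3 → Finset (Fin k))
    (p : V → Fin 3) (a : V → Bool) (Z : Finset V) : Prop where
  K0c : K0.card = d + 2
  vK : ∀ v, v ∉ UH → c v ∈ K0
  tK : ∀ v v', G.Adj v v' → ¬ EH.Adj v v' → t v v' ∈ K0
  CK : ∀ j, C j ⊆ K0
  Cc : ∀ j, π * d ≤ ((C j).card : ℝ)
  Cd : ∀ i j, i ≠ j → Disjoint (C i) (C j)
  av : ∀ s ∈ Sp, s ∉ Z → ∀ v, G.Adj s v → ¬ EH.Adj s v → t s v ∉ C (p s)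
  ZY : ∀ Y ∈ Ys, ((Y ∩ Z).card : ℝ) ≤ δ * d
  cell : ∀ Y ∈ Ys, ∀ i l,
    |((Y.filter (fun v => p v = i ∧ a v = l)).card : ℝ) - (Y.card : ℝ) / 6| ≤ δ * d
  ld : ∀ Y ∈ Ys, ∀ b, ((Y.filter (fun s => s ∉ Z ∧
    ∃ v, G.Adj s v ∧ ¬ EH.Adj s v ∧ t s v = b)).card : ℝ) ≤ δ * d

/-- THEOREM OUT. `θ` does not depend on `g`. -/
def Stmt_OUT : Prop :=
  ∀ (δ π : ℝ), 0 < δ → 0 < π → π < 1 / 3 → ∃ θ : ℝ, 0 < θ ∧ θ ≤ 1 / 100 ∧ ∀ g : ℝ, 0 < g →
    g ≤ 1 / 10 → ∃ d0 : ℕ, ∀ {V : Type u} [Fintype V] (G : SimpleGraph V) (d k : ℕ)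
      (Sp : Finset V) (Ys : Finset (Finset V)) (UH : Finset V) (c0 : V → Fin k)
      (EH : SimpleGraph V) (tu : V → Fin k), d0 ≤ d → d ≤ Fintype.card V → d + 2 ≤ k →
      (∀ v, (nb G v).card ≤ d) → (∀ s ∈ Sp, ((nb G s).card : ℝ) ≤ θ * d) →
      (∀ s ∈ Sp, ∀ s' ∈ Sp, ¬ G.Adj s s') →
      (∀ S T : Finset V, Disjoint S T → (∀ t ∈ T, (1 - g) * d ≤ ((nb G t).card : ℝ)) →
        (S.card : ℝ) ≤ (1 + g) * T.card → g * d * T.card ≤ ∑ t ∈ T, ((nb G t \ S).card : ℝ)) →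
      (∀ C : Finset V, (∀ v ∈ C, (1 - g) * d ≤ ((nb G v).card : ℝ)) →
        (C.card : ℝ) ≤ (1 + g) * d → g * d * C.card ≤ ∑ v ∈ C, ((nb G v \ C).card : ℝ)) →
      (∀ Y ∈ Ys, Y ⊆ Sp ∧ Y.card ≤ 2 * d) →
      (∀ Y ∈ Ys, ∀ Y' ∈ Ys, Y ≠ Y' → Disjoint Y Y') → HPre G UH c0 EH tu →
      ∃ (c : V → Fin k) (t : V → V → Fin k) (K0 : Finset (Fin k)) (C : Fin 3 → Finset (Fin k))
        (p : V → Fin 3) (a : V → Bool) (Z : Finset V),
        Tot G c t ∧ (∀ v ∈ UH, c v = c0 v) ∧ (∀ v v', EH.Adj v v' → t v v' = tu v) ∧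
        OutR δ π G d Sp Ys UH EH c t K0 C p a Z

end Pool.Agent.Work.MP_db9399_ot
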